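import Pool.Agent.Y191.LcCan

/-!
# Klt pairs whose fibres correspond to moving log canonical arrangements of hyperplanes

Let `(X, Δ)` be a projective pair (for instance klt, or `X` a manifold and `Δ = 0`), `X ⇢ P^v` a
rational map whose image `Y`, any subvariety of `P^v`, has dimension `p`. Suppose:

* (the base) `ℓ i = 0`, `i < q`, are hyperplanes in general position which do not contain `Y`, such
  that the points `ℓ i` impose independent conditions on the forms of degree `d`, with weights
  `wt i ≥ 0` whose sum is greater than `(p + 1) γ`, `γ = (v - p + d).choose (v - p)`; if `e i` is the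
  multiplicity of the hyperplane `ℓ i = 0` at the prime divisor `P` of `X` (for the divisors without
  fixed component which the map defines) then
  `min (#{i | e i ≠ 0}) γ ≤ γ Δ_P + ∑ i, (1 - wt i) e i`;
  or: `p ≥ 1`, there are more than `(v + Q).choose v` general hyperplanes, `2 v m ≤ Q (m - 1)`,
  `m ≥ 2`, and each `e i` is `0` or at least `m (1 - Δ_P)`;
* (the fibres) there is a correspondence between `X` and a relative product of projective spaces:
  a variety `X'` with a generically finite map `X' ⇢ X` (any finite extension `K'` of the function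
  field `K`, ramified anywhere) and a generically finite map over `Y` of `X'` to
  `Y' × P^{r_1} × ... × P^{r_c}`, `r_j ≥ 1`, `Y'` finite over `Y`, and in each `P^{r_j}` there are
  any hyperplanes `A j i = 0` which move with the point of `Y'`, with weights `w j i` in `[0, 1]`
  such that the arrangement is log canonical: the sum of the weights of hyperplanes with a common
  point is at most the codimension of their intersection. Over the generic point of `Y` the pull
  backs to `X'` of `K_X + Δ` and of `K + ∑ w j i (A j i = 0)` agree up to exceptional divisors on the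
  right side. This means: if `Q` is a place of `K'` over a prime divisor `P` of `X` which dominates
  `Y`, with ramification index `ε`, and `e j i` are the multiplicities of the hyperplanes at `Q`, not
  all zero, then `ε (1 - Δ_P)` is at most `∑ (mx_j - ∑ w j i e j i)`, where `mx_j` is the greatest sum
  of `r_j + 1` of the `e j i` whose hyperplanes have no common point (at most `1`, if all `e j i` are
  zero); and if `Q` is a place of `K'` over a prime divisor of `P^{r_1} × ... × P^{r_c}` over `Y`, with
  ramification index `ρ`, and over the place `P` of `K`, with ramification index `ε`, then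
  `ρ - ε α ≤ ∑ w j i e j i`, where `α` is the log discrepancy of `(X, Δ)` along `P`.

Then `κ(K_X + Δ) = ν(K_X + Δ)`: `K_X + Δ` is pseudo-effective if and only if `∑ i, w j i ≥ r_j + 1`
for all `j`; then `κ(K_X + Δ) = ν(K_X + Δ) = p + l`, where `l` is the sum of the `r_j` with
`∑ i, w j i > r_j + 1`; otherwise `κ(K_X + Δ) = ν(K_X + Δ) = -∞`. If `(X, Δ)` is klt and
`K_X + Δ` is pseudo-effective then it has a good minimal model: by Gongyo-Lehmann and
Demailly-Hacon-Paun this is equivalent to `κ = ν`.

The hyperplanes may have any intersections, also all the arrangements of lines in the plane and the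
boundaries of the moduli spaces of pointed rational curves; the generic fibre may be a cover which is
ramified over such an arrangement, or a quotient by a finite group of a product of such covers, with
canonical singularities. The monodromy over `Y` may be arbitrary.

The language and the definitions of `Pool.Agent.Y172` are used: `X` is given by the homogeneous
coordinates `y` of its generic point, with values in the function field `K` of `X`; the prime divisors
of `X` are places `P` of `K`, `P.ord` is the order along `P`.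

Proof: by the Rado-Horn theorem (`exists_bases`) the weight vector of a log canonical arrangement,
multiplied by a positive integer, is a sum of indicator vectors of bases, so that there are products
of determinants of logarithmic derivatives of the linear forms along the fibres of `X'` which are
sections along the fibres (`lc_low`); their norms to `K` are multiplied by the form of the base of
`Pool.Agent.Y191`. For the upper bound, the sections of `m (K_X + Δ) + A` are pulled back to `X'`;
their traces to the field of `Y' × P^{r_1} × ... × P^{r_c}`, multiplied by the forms of the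
arrangement to the powers `⌈m w j i⌉`, are polynomials of bounded degree in the coordinates of the
factors with `∑ i, w j i = r_j + 1`, up to a denominator which does not depend on `m`, and they vanish
if `∑ i, w j i < r_j + 1` for some `j` (`lc_ab`).
-/

set_option autoImplicit false

open FF Pool.Agent.W602.GT Pool.Agent.Y172 Pool.Agent.Y191

namespace Pool.Agent.Results.MP_e23cd6_ag.LogCanonicalArrangements

section

variable {K : Type} [Field K] [Algebra ℂ K] {N : ℕ}

/-- `(X, Δ)` is a projective pair of dimension `n`: `X` is normal, with generic point `y`, and `Δ` is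
an effective `ℚ`-divisor. -/
def IsPair (y : Fin (N + 1) → K) (n : ℕ) (Δ : Place ℂ K → ℚ) : Prop :=
  NormalModel y ∧ Algebra.trdeg ℂ K = n ∧ Effective y Δ

/-- The `b j` are the coordinates of a rational map whose image has dimension `p` and is not
contained in one of the hyperplanes `ℓ i = 0`. -/
def IsMap {v q : ℕ} (ℓ : Fin q → Fin (v + 1) → ℂ) (b : Fin (v + 1) → K) (p : ℕ) : Prop :=
  (∀ i, lf (ℓ i) b ≠ 0) ∧ (∃ j, b j ≠ 0) ∧ Algebra.trdeg ℂ (RF ℂ b) = p

/-- There is a finite extension `K'` of `K`, and the `u ⟨j, k⟩` are the affine coordinates of a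
generically finite map, over the variety with the function field `L`, of a variety with the function
field `K'` to a product of projective spaces of dimensions `r j ≥ 1`; `A j i` are the coefficients of
hyperplanes, algebraic over `L`, with weights `w j i` in `[0, 1]` such that the arrangement is log
canonical (`LcArr`). The pull back of `K_X + Δ` to `K'` is compared with the pull back of the
canonical divisor of the relative product plus `∑ w j i (A j i = 0)` at the places over the prime
divisors of `X` which are trivial on `L` (`LcHor`) and at the places over the prime divisors of the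
product (`Cor`). -/
def Fibres (y : Fin (N + 1) → K) (n : ℕ) (Δ : Place ℂ K → ℚ) (L : IntermediateField ℂ K) {c : ℕ}
    (r s : Fin c → ℕ) (w : ∀ j, Fin (s j) → ℚ) : Prop :=
  (∀ j, 1 ≤ r j ∧ ∀ i, 0 ≤ w j i ∧ w j i ≤ 1) ∧
  ∃ (K' : Type) (_ : Field K') (_ : Algebra ℂ K') (_ : Algebra K K') (_ : IsScalarTower ℂ K K')
    (_ : FiniteDimensional K K') (A : ∀ j, Fin (s j) → Fin (r j + 1) → K')
    (u : (Σ j, Fin (r j)) → K'),
    LcArr (upF K' L) A w ∧ IsTranscendenceBasis (upF K' L) u ∧
    LcHor L A u w {P | IsPrimeDivisor y P} (fun P => (Δ P : ℝ)) ∧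
    Cor y n Δ (upF K' L) A u w

/-- the sum of the dimensions `r j` for which the sum of the weights is greater than `r j + 1` -/
def big {c : ℕ} (r s : Fin c → ℕ) (w : ∀ j, Fin (s j) → ℚ) : ℕ :=
  ∑ j, if (r j + 1 : ℚ) < ∑ i, w j i then r j else 0

/-- If the sums of the weights are at least `r j + 1` then the Kodaira dimension and the numerical
dimension (with respect to any effective integral divisor `A`) of `K_X + Δ` are `p + big`; otherwise
both are `-∞`. -/
def Abundance (y : Fin (N + 1) → K) (n : ℕ) (Δ : Place ℂ K → ℚ) (p : ℕ) {c : ℕ} (r s : Fin c → ℕ)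
    (w : ∀ j, Fin (s j) → ℚ) : Prop :=
  ((∀ j, (r j + 1 : ℚ) ≤ ∑ i, w j i) → kodairaDim y n Δ = ((p + big r s w : ℕ) : WithBot ℕ) ∧
    ∀ A, Effective y A → Integral y A → numericalDim y n Δ A = ((p + big r s w : ℕ) : EReal)) ∧
  ((∃ j, ∑ i, w j i < (r j + 1 : ℚ)) → kodairaDim y n Δ = ⊥ ∧
    ∀ A, Effective y A → numericalDim y n Δ A = ⊥)

end

theorem exists_idx {c : ℕ} (r q : Fin c → ℕ) (w : ∀ j, Fin (q j) → ℚ) :
    ∃ κ : Fin (big r q w) → Σ j, Fin (r j), Function.Injective κ ∧
      ∀ i, (r (κ i).1 + 1 : ℚ) < ∑ i', w (κ i).1 i' := by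
  classical
  have h1 : Fintype.card {x : Σ j, Fin (r j) // (r x.1 + 1 : ℚ) < ∑ i, w x.1 i} = big r q w := by
    rw [Fintype.card_subtype, Finset.card_filter, Fintype.sum_sigma]
    refine Finset.sum_congr rfl fun j _ => ?_
    change ∑ _k : Fin (r j), (if (r j + 1 : ℚ) < ∑ i, w j i then 1 else 0) = _
    rw [Finset.sum_const, Finset.card_univ, Fintype.card_fin, smul_eq_mul, mul_ite, mul_one,
      mul_zero]
  let φ := Fintype.equivFinOfCardEq h1
  exact ⟨fun i => (φ.symm i : Σ j, Fin (r j)), fun a b hab => φ.symm.injective (Subtype.ext hab),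
    fun i => (φ.symm i).2⟩

theorem abundance_of {K : Type} [Field K] [Algebra ℂ K] {N p c : ℕ} {y : Fin (N + 1) → K}
    {Δ : Place ℂ K → ℚ} {r s : Fin c → ℕ} {w : ∀ j, Fin (s j) → ℚ} {L : IntermediateField ℂ K}
    (hy : IsPair y (p + ∑ j, r j) Δ) {K' : Type} [Field K'] [Algebra ℂ K'] [Algebra K K']
    [IsScalarTower ℂ K K'] [FiniteDimensional K K'] {A : ∀ j, Fin (s j) → Fin (r j + 1) → K'}
    {u : (Σ j, Fin (r j)) → K'} (hw : ∀ j, 1 ≤ r j ∧ ∀ i, 0 ≤ w j i ∧ w j i ≤ 1)
    (hA : LcArr (upF K' L) A w) (hu : IsTranscendenceBasis (upF K' L) u)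
    (hC : Cor y (p + ∑ j, r j) Δ (upF K' L) A u w)
    (hK : (∀ j, (r j + 1 : ℚ) ≤ ∑ i, w j i) → KodairaGe (p + ∑ j, r j) {P | IsPrimeDivisor y P}
      (fun P => (Δ P : ℝ)) (p + big r s w)) : Abundance y (p + ∑ j, r j) Δ p r s w := by
  obtain ⟨h1, h2⟩ := lc_ab hy.1 hy.2.1 hy.2.2 hA.1 hu (fun j => (hw j).1)
    (fun j i => ((hw j).2 i).1) (fun j i => ((hw j).2 i).2) hC
  refine ⟨fun h => h2 (p + big r s w) h ?_ (hK h), h1⟩
  rw [add_assoc, big, ← Finset.sum_add_distrib]
  congr 1
  refine Finset.sum_congr rfl fun j _ => ?_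
  rcases lt_or_eq_of_le (h j) with h3 | h3
  · rw [if_pos h3, if_neg h3.ne', add_zero]
  · rw [if_neg (not_lt.2 h3.symm.le), if_pos h3.symm, zero_add]

/-- **Abundance.** Let `(X, Δ)` be a projective pair of dimension `p + ∑ j, r j`, `b` the coordinates
of a rational map `X ⇢ P^v` whose image has dimension `p`, and let the fibres be as in `Fibres`.

(1) Let `ℓ i = 0` be hyperplanes in general position which do not contain the image and impose
independent conditions on the forms of degree `d`, with weights `wt i ≥ 0` whose sum is greater than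
`(p + 1) * γ`, where `γ = (v - p + d).choose (v - p)`, and let the multiplicities `e i` satisfy
`min (#{i | e i ≠ 0}) γ ≤ γ Δ_P + ∑ i, (1 - wt i) e i` at all prime divisors of `X`. Then
`κ(K_X + Δ) = ν(K_X + Δ)` is `p` plus the sum of the `r j` with `r j + 1 < ∑ i, w j i`, if
`r j + 1 ≤ ∑ i, w j i` for all `j`, and `-∞` otherwise.

(2) Let `m ≥ 2`, `2 * v * m ≤ Q * (m - 1)` and `(v + Q).choose v < q`. For `q` general hyperplanes
(some polynomial `Ψ` does not vanish at the coefficients) the following holds: if `p ≥ 1` and the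
multiplicities `e i` at the prime divisors `P` of `X` are `0` or at least `m * (1 - Δ_P)`, then
`κ(K_X + Δ) = ν(K_X + Δ)` with the same value. -/
theorem result {v q : ℕ} (hv : 1 ≤ v) :
    (∀ d p : ℕ, 0 < d → ∀ ℓ : Fin q → Fin (v + 1) → ℂ, Independent d ℓ → GeneralPosition ℓ →
      v + 1 ≤ q → ∀ (K : Type) [Field K] [Algebra ℂ K] (N c : ℕ) (r s : Fin c → ℕ)
      (y : Fin (N + 1) → K) (Δ : Place ℂ K → ℚ), IsPair y (p + ∑ j, r j) Δ →
      ∀ b : Fin (v + 1) → K, IsMap ℓ b p → ∀ wt : Fin q → ℚ, (∀ i, 0 ≤ wt i) →
      (((p + 1) * (v - p + d).choose (v - p) : ℕ) : ℚ) < ∑ i, wt i →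
      (∀ P, IsPrimeDivisor y P → ∀ (c : ℤ) (e : Fin q → ℕ), OrdData P ℓ b c e →
        ((min (Finset.univ.filter fun i => e i ≠ 0).card ((v - p + d).choose (v - p)) : ℕ) : ℚ) ≤
          ((v - p + d).choose (v - p) : ℕ) * Δ P + ∑ i, (1 - wt i) * e i) →
      ∀ w : ∀ j, Fin (s j) → ℚ, Fibres y (p + ∑ j, r j) Δ (RF ℂ b) r s w →
      Abundance y (p + ∑ j, r j) Δ p r s w) ∧
    ∀ m Q : ℕ, 2 ≤ m → 2 * v * m ≤ Q * (m - 1) → (v + Q).choose v < q →
      ∃ Ψ : MvPolynomial (Fin q × Fin (v + 1)) ℂ, Ψ ≠ 0 ∧
        ∀ ℓ : Fin q → Fin (v + 1) → ℂ, MvPolynomial.eval (fun x => ℓ x.1 x.2) Ψ ≠ 0 →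
        ∀ (K : Type) [Field K] [Algebra ℂ K] (N p c : ℕ) (r s : Fin c → ℕ)
        (y : Fin (N + 1) → K) (Δ : Place ℂ K → ℚ), 1 ≤ p → IsPair y (p + ∑ j, r j) Δ →
        ∀ b : Fin (v + 1) → K, IsMap ℓ b p →
        (∀ P, IsPrimeDivisor y P → ∀ (c : ℤ) (e : Fin q → ℕ), OrdData P ℓ b c e →
          ∀ i, e i = 0 ∨ m * (1 - Δ P) ≤ e i) →
        ∀ w : ∀ j, Fin (s j) → ℚ, Fibres y (p + ∑ j, r j) Δ (RF ℂ b) r s w →
        Abundance y (p + ∑ j, r j) Δ p r s w := by
  constructor
  · rintro d p hd ℓ hI hg hq K _ _ N c r s y Δ hy b ⟨hl, hb, htr⟩ wt hwt hlt hmult w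
      ⟨hw, K', _, _, _, _, _, A, u, hA, hu, hH, hC⟩
    refine abundance_of hy hw hA hu hC fun hws => ?_
    obtain ⟨κ, hκ, hκs⟩ := exists_idx r s w
    refine (lc_small (δ := fun P => (Δ P : ℝ)) (X := {P | IsPrimeDivisor y P}) hd hI hg hq hl hb
      htr hy.2.1 hwt hlt.le (fun P hP => by exact_mod_cast hy.2.2.1 P hP)
      (fun P hP _ c e ho => ?_) hA finSigmaFinEquiv hu (fun j i => ((hw j).2 i).1) hws hκ hκs hH).2 hlt
    have h3 := hmult P hP c e ho
    have h4 := (Rat.cast_le (K := ℝ)).2 h3
    push_cast at h4 ⊢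
    exact h4
  · intro m Q hm hQ hq
    obtain ⟨Ψ, hΨ, h⟩ := lc_general (n := v) (q' := q) hv hm hQ hq
    refine ⟨Ψ, hΨ, ?_⟩
    rintro ℓ hℓ K _ _ N p c r s y Δ hp hy b ⟨hl, hb, htr⟩ hmult w
      ⟨hw, K', _, _, _, _, _, A, u, hA, hu, hH, hC⟩
    refine abundance_of hy hw hA hu hC fun hws => ?_
    obtain ⟨κ, hκ, hκs⟩ := exists_idx r s w
    refine h ℓ hℓ K p (∑ j, r j) (big r s w) hp hy.2.1 b hl hb htr {P | IsPrimeDivisor y P}
      (fun P => (Δ P : ℝ)) (fun P hP => by exact_mod_cast hy.2.2.1 P hP)
      (fun P hP _ c e ho i => ?_) K' c r s A u w hA finSigmaFinEquiv hu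
      (fun j i => ((hw j).2 i).1) hws κ hκ hκs hH
    rcases hmult P hP c e ho i with h1 | h1
    · exact Or.inl h1
    · right
      have h2 := (Rat.cast_le (K := ℝ)).2 h1
      push_cast at h2
      exact h2

end Pool.Agent.Results.MP_e23cd6_ag.LogCanonicalArrangements
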