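import Pool.Agent.TH756.PN.FinW

/-!
# Abundance for pairs on finite covers of products of projective spaces

Let `X` be a normal projective variety of dimension `N = ∑ i, n i` with a generically finite
surjective morphism to the product of the projective `n i`-spaces, and let `ℓ i k = 0`, `k < q i`, be
hyperplanes in projective `n i`-space, an arbitrary arrangement (no general position is assumed).
Let `Δ` be a boundary on `X` with arbitrary real coefficients in `[0, 1]`. The variety `X` is given by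
its function field `K` and the set `V` of its prime divisors (places of `K`); the coordinates of the
map to the `i`-th factor are `x i 0, ..., x i (n i)`, and `δ P` is the coefficient of `Δ` along `P`.

The factors are divided into two sets, `I` and its complement. The theorem: `κ (K_X + Δ)` and
`ν (K_X + Δ)` are both equal to the dimension `∑ i ∈ I, n i` of the product of the factors in `I`,
if the log discrepancies `1 - δ P` of `(X, Δ)` satisfy the conditions

* (`lower`) at the prime divisors `P` of `X` over the hyperplanes, `1 - δ P` is at most the sum of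
  bounds `g i (v i)`, which depend only on the multiplicities `v i k` of the hyperplanes at `P`
  (the typical bound is the log discrepancy of a log Calabi-Yau pair `(ℙ ^ (n i), ∑ w k H k)`), with
  strict inequality over one hyperplane `k0 i` of each of the factors in `I`,
* (`upper`) away from the hyperplanes and from the pullbacks of finitely many divisors (`F`) of the
  product of the factors in `I`, the map is unramified in codimension one and `Δ` is zero; over the
  hyperplanes of the factors which are not in `I`, `1 - δ P` is at least the log discrepancy of a log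
  Calabi-Yau pair `(ℙ ^ (n i), ∑ w k H k)`.

The Kodaira and the numerical dimension are given by the sections of `m (K_X + Δ)` and of
`m (K_X + Δ) + A`: functions of `N` rational vector fields, with a condition at the prime divisors of
`X` only (`X` is normal).
-/

set_option autoImplicit false

open FF Module MvPolynomial Pool.Agent.W602.Cov Pool.Agent.W602.GT Pool.Agent.TH152.AC

namespace Pool.Agent.Results.MP_e23cd6_ag.MultiprojectivePairs

section bounds

variable {n q : ℕ}

/-- In suitable linear coordinates `X 0, ..., X n` each of the hyperplanes is one of `X j = 0` or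
`X 0 + ... + X n = 0`. -/
def Simplicial (ℓ : Fin q → Form n) : Prop :=
  ∃ X : Basis (Fin (n + 1)) ℂ (Form n), ∀ i,
    (∃ c : ℂ, ℓ i = c • ∑ j, X j) ∨ ∃ (j : Fin (n + 1)) (c : ℂ), ℓ i = c • X j

/-- `(ℙ ^ n, ∑ w k H k)` is a log Calabi-Yau pair with rational weights: `w` is a rational convex
combination of the vectors with entries `1` for the `n + 1` hyperplanes of a basis `B` (that is, of
`n + 1` linearly independent ones) and `0` for all others. -/
def LogCalabiYau (ℓ : Fin q → Form n) (w : Fin q → ℚ) : Prop :=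
  ∃ p : Bases ℓ → ℕ, 0 < ∑ B, p B ∧ ∀ k, (∑ B, (p B : ℚ)) * w k =
    ∑ B, (p B : ℚ) * ((Finset.univ.filter fun a => B.1 a = k).card : ℚ)

/-- The maximum of the sums of the `v k` over the bases, minus the sum of the `w k * v k`. This is the
log discrepancy of the pair `(ℙ ^ n, ∑ w k H k)` at the toric divisors over the projective space along
which the hyperplanes have the multiplicities `v k`, and a lower bound for it at all divisors with
these multiplicities. -/
noncomputable def logDiscrepancy (ℓ : Fin q → Form n) (w : Fin q → ℚ) (v : Fin q → ℕ) : ℚ :=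
  ((Finset.univ.sup fun B : Bases ℓ => ∑ a, v (B.1 a) : ℕ) : ℚ) - ∑ k, w k * v k

/-- The bounds for one arrangement. -/
inductive Bound (ℓ : Fin q → Form n) : ((Fin q → ℕ) → ℚ) → Prop
  | irreducible : ¬ Reducible ℓ →
      Bound ℓ fun v => ((Finset.univ.sup v : ℕ) : ℚ) / ((n + 2 : ℕ) : ℚ)
  | notSimplicial : ¬ Reducible ℓ → ¬ Simplicial ℓ →
      Bound ℓ fun v => ((Finset.univ.sup v : ℕ) : ℚ) / ((n + 1 : ℕ) : ℚ)
  | logCalabiYau (w : Fin q → ℚ) : LogCalabiYau ℓ w → Bound ℓ (logDiscrepancy ℓ w)

end bounds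

/-- The value of a linear form at a vector over `K`. -/
noncomputable def form {n : ℕ} {K : Type} [Field K] [Algebra ℂ K] (φ : Form n)
    (x : Fin (n + 1) → K) : K := ∑ j, algebraMap ℂ K (φ (Pi.single j 1)) * x j

section divisors

variable {r : ℕ} {n q : Fin r → ℕ} {K : Type} [Field K] [Algebra ℂ K]

/-- The affine coordinates of the product of the projective spaces. -/
noncomputable def affine (x : ∀ i, Fin (n i + 1) → K) (b : (i : Fin r) × Fin (n i)) : K :=
  x b.1 b.2.succ / x b.1 0

/-- The hyperplanes `ℓ i k` have the multiplicities `v i k` at `P`: their orders are `a i + v i k`,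
where `a i` is the minimum of the orders of all linear forms on the `i`-th factor. -/
def Multiplicities (ℓ : ∀ i, Fin (q i) → Form (n i)) (x : ∀ i, Fin (n i + 1) → K)
    (P : Place ℂ K) (a : Fin r → ℤ) (v : ∀ i, Fin (q i) → ℕ) : Prop :=
  (∀ i (φ : Form (n i)), form φ (x i) = 0 ∨ a i ≤ P.ord (form φ (x i))) ∧
    (∀ i, ∃ φ : Form (n i), form φ (x i) ≠ 0 ∧ P.ord (form φ (x i)) = a i) ∧
    ∀ i k, P.ord (form (ℓ i k) (x i)) = a i + v i k

/-- The degree in the affine coordinates of the `i`-th factor. -/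
def degree (i : Fin r) (f : MvPolynomial ((i : Fin r) × Fin (n i)) ℂ) : ℕ :=
  f.support.sup fun m => ∑ j : Fin (n i), m ⟨i, j⟩

/-- The place `P` of `K` lies over a prime divisor of the product of the projective spaces, with
ramification index `m`: over the zero divisor of an irreducible polynomial `p` in the affine
coordinates, or over the hyperplane at infinity of one of the factors. -/
def LiesOver (x : ∀ i, Fin (n i + 1) → K) (P : Place ℂ K) (m : ℕ) : Prop :=
  (∃ p : MvPolynomial ((i : Fin r) × Fin (n i)) ℂ, Irreducible p ∧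
    P.ord (aeval (affine x) p) = m ∧ ∀ f, f ≠ 0 → 0 ≤ P.ord (aeval (affine x) f) ∧
      (P.ord (aeval (affine x) f) = 0 ↔ ¬ p ∣ f)) ∨
  (0 < m ∧ ∃ i, ∀ f, f ≠ 0 → P.ord (aeval (affine x) f) = - ((m : ℤ) * (degree i f : ℤ)))

end divisors

section sections

variable {K : Type} [Field K] [Algebra ℂ K]

/-- `ω` is a section of `m (K_X + Δ) + A`: a rational section of the `m`-th power of the canonical
bundle (`IsPluri`: a function of `N` rational vector fields which is multiplied by `det B ^ m` under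
a linear substitution `B`) whose order on the vector fields which are regular at `P` is at least
`-(m δ P)` plus the order of one of the functions in `S`, for all prime divisors `P` of `X`. Here `A`
is the divisor which is generated by the finite set `S` of functions; `A = 0` if `S = {1}`. -/
def IsSection (N : ℕ) (V : Set (Place ℂ K)) (δ : Place ℂ K → ℝ) (S : Finset K) (m : ℕ)
    (ω : (Fin N → Derivation ℂ K K) → K) : Prop :=
  IsPluri m ω ∧ ∀ P ∈ V, Divisorial N P → ∀ D : Fin N → Derivation ℂ K K,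
    (∀ j, DerReg P (D j)) → ω D = 0 ∨ ∃ s ∈ S, s ≠ 0 ∧ (P.ord s : ℝ) - m * δ P ≤ P.ord (ω D)

/-- `κ (K_X + Δ) ≥ h`: for some `m > 0` there are sections of `m (K_X + Δ)` whose ratios contain `h`
algebraically independent functions. -/
def KodairaGe (N : ℕ) (V : Set (Place ℂ K)) (δ : Place ℂ K → ℝ) (h : ℕ) : Prop :=
  ∃ m : ℕ, 0 < m ∧ ∃ ω : Fin (h + 1) → (Fin N → Derivation ℂ K K) → K,
    (∀ b, IsSection N V δ {1} m (ω b)) ∧
    ∃ D, ω 0 D ≠ 0 ∧ AlgebraicIndependent ℂ (fun b : Fin h => ω b.succ D / ω 0 D)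

/-- `ν (K_X + Δ) ≤ h`: for every divisor `A` there is a constant `C` such that
`h⁰ (m (K_X + Δ) + A) ≤ C m ^ h` for all `m ≥ 1`. -/
def NumericalLe (N : ℕ) (V : Set (Place ℂ K)) (δ : Place ℂ K → ℝ) (h : ℕ) : Prop :=
  ∀ S : Finset K, ∃ C : ℕ, ∀ m M : ℕ, 1 ≤ m →
    (∃ ω : Fin M → (Fin N → Derivation ℂ K K) → K, LinearIndependent ℂ ω ∧
      ∀ l, IsSection N V δ S m (ω l)) → M ≤ C * m ^ h

end sections

/-- **Abundance.** Let `X` be a normal projective variety with function field `K` and with the set `V`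
of prime divisors, with a generically finite surjective morphism to the product of the projective
`n i`-spaces (`hVL`: the divisors of `K` over prime divisors of the product are divisors of `X`), and
let `Δ` be an effective divisor on `X` with coefficients `δ P` at most `1`. Under the conditions
`lower` and `upper` on the log discrepancies, `κ (K_X + Δ) = ν (K_X + Δ) = ∑ i ∈ I, n i`. -/
theorem result (r N : ℕ) (n q : Fin r → ℕ) (hr : 1 ≤ r) (hn : ∀ i, 1 ≤ n i) (hN : N = ∑ i, n i)
    (ℓ : ∀ i, Fin (q i) → Form (n i)) (hℓ : ∀ i k, ℓ i k ≠ 0)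
    (g : ∀ i, (Fin (q i) → ℕ) → ℚ) (hg : ∀ i, Bound (ℓ i) (g i))
    (I : Finset (Fin r)) (k0 : ∀ i, Fin (q i)) (w : ∀ i, Fin (q i) → ℚ)
    (hw0 : ∀ i, i ∉ I → ∀ k, 0 ≤ w i k) (hw1 : ∀ i, i ∉ I → ∑ k, w i k = (n i : ℚ) + 1)
    (F : Finset (MvPolynomial ((i : Fin r) × Fin (n i)) ℂ)) (hF0 : ∀ f ∈ F, f ≠ 0)
    (hF : ∀ f ∈ F, ∀ i, i ∉ I → degree i f = 0)
    (K : Type) [Field K] [Algebra ℂ K] (x : ∀ i, Fin (n i + 1) → K) (hx0 : ∀ i, x i 0 ≠ 0)
    (hbas : IsTranscendenceBasis ℂ (affine x))
    (hfd : FiniteDimensional (IntermediateField.adjoin ℂ (Set.range (affine x))) K)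
    (V : Set (Place ℂ K)) (hV : ∀ f : K, f ≠ 0 → {P ∈ V | P.ord f ≠ 0}.Finite)
    (hVL : ∀ P m, LiesOver x P m → P ∈ V) (δ : Place ℂ K → ℝ) (hδ0 : ∀ P ∈ V, 0 ≤ δ P)
    (hδ1 : ∀ P ∈ V, δ P ≤ 1)
    (lower : ∀ P ∈ V, Divisorial N P → ∀ (a : Fin r → ℤ) (v : ∀ i, Fin (q i) → ℕ),
      Multiplicities ℓ x P a v → (∃ i, v i ≠ 0) → 1 - δ P ≤ ((∑ i, g i (v i) : ℚ) : ℝ) ∧
        ((∃ i ∈ I, v i (k0 i) ≠ 0) → 1 - δ P < ((∑ i, g i (v i) : ℚ) : ℝ)))
    (upper : ∀ P m, LiesOver x P m → ∀ (a : Fin r → ℤ) (v : ∀ i, Fin (q i) → ℕ),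
      Multiplicities ℓ x P a v →
        ((∀ i, v i = 0) → (∀ f ∈ F, P.ord (aeval (affine x) f) = 0) → m = 1 ∧ δ P ≤ 0) ∧
        ∀ i, i ∉ I → v i ≠ 0 → (m : ℝ) - ((∑ k, w i k * v i k : ℚ) : ℝ) ≤ 1 - δ P) :
    KodairaGe N V δ (∑ i ∈ I, n i) ∧ NumericalLe N V δ (∑ i ∈ I, n i) := by
  have hwtd : ∀ i, Pool.Agent.TH756.PN.Wtd (ℓ i) (g i) := by
    intro i
    obtain ⟨G, hG⟩ : ∃ G, G = g i := ⟨_, rfl⟩
    have h1 := hg i
    rw [← hG] at h1 ⊢
    cases h1 with
    | irreducible h2 =>
      exact Pool.Agent.TH756.PN.wtd_slack (by omega)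
        (Pool.Agent.TH756.PR.slack_of_bnd (hn i) (hℓ i) h2 (Or.inl rfl))
        (Pool.Agent.W392.CG.span_top (hn i) (ℓ i) h2)
    | notSimplicial h2 h3 =>
      exact Pool.Agent.TH756.PN.wtd_slack (by omega)
        (Pool.Agent.TH756.PR.slack_of_bnd (hn i) (hℓ i) h2 (Or.inr ⟨rfl, Or.inr h3⟩))
        (Pool.Agent.W392.CG.span_top (hn i) (ℓ i) h2)
    | logCalabiYau w h2 => exact Pool.Agent.TH756.PN.BasePt.wtd h2
  obtain ⟨⟨T, hT, ω, hω, D, hD, hind⟩, hnu⟩ := Pool.Agent.TH756.PN.pairs_main (K := K) (x := x)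
    (ℓ := ℓ) hr hn hN hℓ g hwtd I k0 w hw0 hw1 F hF0 hF hx0 hbas hfd V hV hVL δ hδ0 hδ1 lower upper
  refine ⟨⟨T, hT, ω, fun b => ⟨(hω b).1, fun P hP hPd D hD => ?_⟩, D, hD, hind⟩, hnu⟩
  refine ((hω b).2 P hP hPd D hD).imp id fun h => ⟨1, by simp, one_ne_zero, ?_⟩
  rw [P.ord_one]
  push_cast
  linarith

end Pool.Agent.Results.MP_e23cd6_ag.MultiprojectivePairs
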