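import Pool.Agent.Y173.QO.Main

/-! Kodaira dimension and numerical dimension of pairs on quotients of varieties with many closed
1-forms relative to a base with an orbifold divisor. -/

set_option autoImplicit false
set_option linter.overlappingInstances false

open FF IntermediateField Pool.Agent.W619.PQ Pool.Agent.W619.TW Pool.Agent.W619.Y
  Pool.Agent.Y173.QA Pool.Agent.Y173.QM Pool.Agent.Y173.QO
open Pool.Agent.Y174 (PairKod PairNum LiesOn)

namespace Pool.Agent.Results.MP_e23cd6_ag.OrbifoldBaseForms

/-- Let `Z` be a projective manifold of dimension `m + f > 0` with function field `L`, `Z → Y` a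
dominant rational map onto a variety of dimension `m` with function field `M`, `G` a finite
group of birational automorphisms of `Z` (which need not respect `Y`), `V` a `G`-stable space of
closed regular `1`-forms on `Z` which generically generates the relative cotangent bundle of
`Z → Y` (`hgen`), `X = Z / G`, `Δ ≥ 0` a divisor on `X` with multiplicities `δ`, and `Δ_Y` a divisor
on `Y` with multiplicities `δY`. Assume the condition `ReidTaiOrb`. Let `d` be the dimension of the
space of rational vector fields on `Z` along the fibres of `Z → Y` on which all forms in `V` are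
constant. Then `κ (K_X + Δ) ≥ κ (K_Y + Δ_Y) + f - d` (if `κ (K_Y + Δ_Y) ≥ 0`); and if these vector
fields are regular on some projective model of `Z` and `e (1 - δ) ≥ 1`, where `e` is the
ramification index, then `ν (K_X + Δ) ≤ m + f - d`. So `κ (K_X + Δ) = ν (K_X + Δ) = m + f - d` if
`K_Y + Δ_Y` is big. -/
theorem result {k L : Type} [Field k] [CharZero k] [IsAlgClosed k] [Field L] [Algebra k L]
    [Algebra.EssFiniteType k L] {m f : ℕ} (hpos : 0 < m + f)
    (hn : Algebra.trdeg k L = (m + f : ℕ))
    (M : IntermediateField k L) [Algebra.EssFiniteType k M] (hM : Algebra.trdeg k M = m)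
    (G : Subgroup (L ≃ₐ[k] L)) [Finite G] (V : Submodule k (Derivation k L L →ₗ[L] L))
    (hreg : ∀ θ ∈ V, IsRegForm (m + f) θ) (hcl : ∀ θ ∈ V, IsClosedForm θ)
    (hstab : ∀ g ∈ G, ∀ θ ∈ V, ∃ θ' ∈ V, IsImage g θ θ')
    (hgen : ∃ θ : Fin f → Derivation k L L →ₗ[L] L, (∀ i, θ i ∈ V) ∧ IndepOver (m := m) M θ)
    (δ : Place k (fixedField G) → ℝ) (hδ : ∀ v, IsDivisorial v (m + f) → 0 ≤ δ v)
    (δY : Place k M → ℝ) (hRT : ReidTaiOrb m f G M V δ δY) :
    ∃ b : ℕ, b + Module.finrank k (constFieldsOver M V) = f ∧
      (∀ h, PairKod k M m δY h → PairKod k (fixedField G) (m + f) δ (h + b)) ∧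
      (IsRegularOnModel (constFieldsOver M V) →
        (∀ (w : Place k L) (v : Place k (fixedField G)) (e : ℕ), LiesOn w v e →
          1 ≤ e * (1 - δ v)) →
        PairNum k (fixedField G) (m + f) δ (m + b)) :=
  mainO hpos hn M hM G V hreg hcl hstab hgen δ hδ δY hRT

end Pool.Agent.Results.MP_e23cd6_ag.OrbifoldBaseForms
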