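import Pool.Agent.Y174.OB.O11

/-!
MP_e23cd6_ag, Q1: abundance for klt (and lc) pairs of any Kodaira dimension for which the orbifold
symmetric differentials have no common zeros over a general point.
-/

set_option autoImplicit false

open Pool.Agent.W619.TW Pool.Agent.W619.Y Pool.Agent.W619.PQ Pool.Agent.Y174 FF

namespace Pool.Agent.Results.MP_e23cd6_ag.OrbifoldSymDifferentials

/-- Let `V → W` be an algebraic fibre space, `V` and `W` projective varieties with function fields `K`
and `L`, `dim W = d`, `dim V = d + (r + 1)`, for instance the Iitaka fibration of the klt (or lc)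
pair `(V, Δ)` with multiplicities `δ`. Let `F` be the function field of the geometric generic fibre,
over the algebraic closure `Λ` of `L`, with the restricted boundary `δF`, and let `δ0 ≤ δF` be the
multiplicities of an orbifold divisor.

(1) If `δ0` is the restriction of a divisor `δ1` on `V`, and the symmetric differentials of
`(V, δ1)` have no common zeros at the geometric generic point, that is, the stable base locus of the
tautological line bundle on the projectivized orbifold tangent bundle does not dominate `V`, then the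
same holds for the geometric generic fibre.

(2) If a finite Galois extension `M` of `F` carries `r + 1` linearly independent multivalued 1-forms
of the orbifold `(F, δ0)`, then the symmetric differentials of `(F, δ0)` have no common zeros.

(3) Conversely, if they have no common zeros and `κ (K_F + δF) ≤ 0`, then there is such an `M`, it has
`r + 1` independent 1-forms with at most logarithmic poles where `δ0 = 1`, so `M` is of maximal
Albanese dimension if `δ0 < 1`, `κ (K_F + δF) = 0`, and for the boundary `δ'` on `M` with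
`K_M + δ' = π^* (K_F + δF)` one has `κ (K_M + δ') = κ (K_F + δF)` and
`ν (K_V + δ) ≤ dim W + ν (K_M + δ')`. -/
theorem result {L K Λ F : Type} [Field L] [Field K] [Field Λ] [Field F]
    -- the function fields of `W` and `V`
    [Algebra ℂ L] [Algebra ℂ K] [Algebra L K] [IsScalarTower ℂ L K]
    [Algebra.EssFiniteType ℂ L] [Algebra.EssFiniteType ℂ K] {d r : ℕ}
    (hW : Algebra.trdeg ℂ L = d) (hV : Algebra.trdeg ℂ K = (d + (r + 1) : ℕ))
    (hLK : ∀ x : K, IsAlgebraic L x → x ∈ Set.range (algebraMap L K))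
    -- the geometric generic fibre
    [Algebra L Λ] [IsAlgClosure L Λ] [Algebra Λ F] [Algebra K F] [Algebra L F]
    [IsScalarTower L Λ F] [IsScalarTower L K F] [Algebra ℂ Λ] [Algebra ℂ F]
    [IsScalarTower ℂ L Λ] [IsScalarTower ℂ Λ F] [IsScalarTower ℂ K F]
    (hF : IntermediateField.adjoin Λ (Set.range (algebraMap K F)) = ⊤)
    -- the boundary, bounded by finitely many functions
    {δ : Place ℂ K → ℝ} {G : Finset K}
    (hG : ∀ v : Place ℂ K, IsDivisorial v (d + (r + 1)) → ∃ g ∈ G, g ≠ 0 ∧ δ v ≤ (v.ord g : ℝ))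
    {δF : Place Λ F → ℝ} (hδF : IsPullFib δ δF)
    -- the orbifold divisor
    {δ0 : Place Λ F → ℝ} (hO : IsOrb δ0) (hle : ∀ w, δ0 w ≤ δF w) :
    (∀ δ1 : Place ℂ K → ℝ, (∀ v, δ1 v ≤ 1) → IsPullFib δ1 δ0 →
      NoBaseOrb ℂ K (d + (r + 1)) δ1 → NoBaseOrb Λ F (r + 1) δ0) ∧
    ((∃ M : IntermediateField F (AlgebraicClosure F), FiniteDimensional F M ∧ IsGalois F M ∧
      ∃ ω : Fin (r + 1) → (Derivation Λ F F →ₗ[F] M), LinearIndependent M ω ∧
        ∀ i, OrbForm (r + 1) δ0 (ω i)) → NoBaseOrb Λ F (r + 1) δ0) ∧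
    (¬ PairKod Λ F (r + 1) δF 1 → NoBaseOrb Λ F (r + 1) δ0 →
      ∃ M : IntermediateField F (AlgebraicClosure F), FiniteDimensional F M ∧ IsGalois F M ∧
        (∃ ω : Fin (r + 1) → (Derivation Λ F F →ₗ[F] M), LinearIndependent M ω ∧
          ∀ i, OrbForm (r + 1) δ0 (ω i)) ∧
        (∃ η : Fin (r + 1) → (Derivation Λ M M →ₗ[M] M), LinearIndependent M η ∧
          ∀ i, ∀ w : Place Λ M, IsDivisorial w (r + 1) → ∀ D : Derivation Λ M M,
            LogFld (BdOn fun v => δ0 v = 1) w D → w.Reg (η i D)) ∧
        PairKod Λ F (r + 1) δF 0 ∧ ∀ δ' : Place Λ M → ℝ, IsPull δF δ' →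
          (∀ a, PairKod Λ F (r + 1) δF a ↔ PairKod Λ M (r + 1) δ' a) ∧
          ∀ h, PairNum Λ M (r + 1) δ' h →
            PairNum Λ F (r + 1) δF h ∧ PairNum ℂ K (d + (r + 1)) δ (d + h)) := by
  have h1 : IsAlgClosed Λ := IsAlgClosure.isAlgClosed L
  have h2 : Algebra.IsAlgebraic L Λ := IsAlgClosure.isAlgebraic
  have hL0 : CharZero L := charZero_of_injective_algebraMap (algebraMap ℂ L).injective
  have hΛ0 : CharZero Λ := charZero_of_injective_algebraMap (algebraMap ℂ Λ).injective
  refine ⟨fun δ1 hδ1 hp h => OB.noBase_fib ‹Algebra.EssFiniteType ℂ K› hW hV hF hp hδ1 h,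
    fun h => OB.noBase_of_forms (ess_F ‹Algebra.EssFiniteType ℂ K› hF)
      (trdeg_F (trdeg_LK hW hV) hF) h,
    fun hκ h => OB.main_base ‹Algebra.EssFiniteType ℂ L› ‹Algebra.EssFiniteType ℂ K› hW hV hLK hF
      hG hδF hO hle hκ h⟩

end Pool.Agent.Results.MP_e23cd6_ag.OrbifoldSymDifferentials
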